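import Pool.Agent.N345.DW.Plane

set_option autoImplicit false
set_option linter.unusedSectionVars false

/-!
# Long lines and the planes through them
-/

namespace Pool.Agent.T9h96.SG

open Finset Pool.Agent.N345.DW

variable {X β : Type} [Fintype X] [Fintype β] [DecidableEq X] [DecidableEq β]

/-- `x` and `y` are joined by a long line -/
def Lg (n : ℕ) (B : β → Finset X) (x y : X) : Prop := x ≠ y ∧ (L B x y).card = n + 1

instance (n : ℕ) (B : β → Finset X) (x y : X) : Decidable (Lg n B x y) := by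
  unfold Lg; infer_instance

variable {B : β → Finset X} {n r : ℕ}

theorem Lg.symm {x y : X} (h : Lg n B x y) : Lg n B y x := ⟨h.1.symm, by rw [L_comm]; exact h.2⟩

theorem Lg.comm {x y : X} : Lg n B x y ↔ Lg n B y x := ⟨Lg.symm, Lg.symm⟩

theorem xE {x y z : X} : x ∈ E B x y z := by rw [mem_E]; intros; assumption
theorem yE {x y z : X} : y ∈ E B x y z := by rw [mem_E]; intros; assumption
theorem zE {x y z : X} : z ∈ E B x y z := by rw [mem_E]; intros; assumption

theorem sub_E {x y z a b : X} (ha : a ∈ E B x y z) (hb : b ∈ E B x y z) :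
    L B a b ⊆ E B x y z := by
  intro w hw
  rw [mem_E] at *
  rw [mem_L] at hw
  exact fun c h1 h2 h3 => hw c (ha c h1 h2 h3) (hb c h1 h2 h3)

variable (h : Dsg n r B)
include h

/-- two different points of a line determine it -/
theorem Lg.of_mem {x y a b : X} (hxy : Lg n B x y) (hab : a ≠ b) (ha : a ∈ L B x y)
    (hb : b ∈ L B x y) : Lg n B a b := ⟨hab, by rw [h.L_eq hxy.1 hab ha hb]; exact hxy.2⟩

theorem notMem_swap {x y z : X} (hxy : x ≠ y) (hz : z ∉ L B x y) : y ∉ L B x z := by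
  intro hy
  have hxz : x ≠ z := fun e => hz (e ▸ left_mem x y)
  have := h.L_eq hxz hxy (left_mem _ _) hy
  exact hz (this ▸ right_mem x z)

/-- a block which contains three points of a plane not on a line, two of them joined by a long
line, contains the plane -/
theorem up {x y z a b c : X} (hxy : Lg n B x y) (hz : z ∉ L B x y) (hab : Lg n B a b)
    (hc : c ∉ L B a b) (h1 : a ∈ E B x y z) (h2 : b ∈ E B x y z) (h3 : c ∈ E B x y z) {e : β}
    (ea : a ∈ B e) (eb : b ∈ B e) (ec : c ∈ B e) {w : X} (hw : w ∈ E B x y z) : w ∈ B e := by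
  have e1 : (univ.filter fun d => x ∈ B d ∧ y ∈ B d ∧ z ∈ B d) =
      univ.filter fun d => a ∈ B d ∧ b ∈ B d ∧ c ∈ B d := by
    apply Finset.eq_of_subset_of_card_le
    · intro d hd
      rw [mem_E] at h1 h2 h3
      simp only [mem_filter, mem_univ, true_and] at hd ⊢
      exact ⟨h1 d hd.1 hd.2.1 hd.2.2, h2 d hd.1 hd.2.1 hd.2.2, h3 d hd.1 hd.2.1 hd.2.2⟩
    · rw [h.three hxy.1 hxy.2 hz, h.three hab.1 hab.2 hc]
  have : e ∈ univ.filter fun d => x ∈ B d ∧ y ∈ B d ∧ z ∈ B d := by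
    rw [e1]
    simp only [mem_filter, mem_univ, true_and]
    exact ⟨ea, eb, ec⟩
  simp only [mem_filter, mem_univ, true_and] at this
  exact mem_E.1 hw e this.1 this.2.1 this.2.2

theorem up_eq {x y z a b c : X} (hxy : Lg n B x y) (hz : z ∉ L B x y) (hab : Lg n B a b)
    (hc : c ∉ L B a b) (h1 : a ∈ E B x y z) (h2 : b ∈ E B x y z) (h3 : c ∈ E B x y z) :
    E B a b c = E B x y z := by
  ext w
  constructor
  · intro hw
    rw [mem_E] at hw ⊢
    intro e e1 e2 e3
    exact hw e (mem_E.1 h1 e e1 e2 e3) (mem_E.1 h2 e e1 e2 e3) (mem_E.1 h3 e e1 e2 e3)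
  · intro hw
    rw [mem_E]
    intro e e1 e2 e3
    exact up h hxy hz hab hc h1 h2 h3 e1 e2 e3 hw

/-- there is a block through two points of a plane which does not contain the plane -/
theorem exists_block {x y z a b : X} (hxy : Lg n B x y) (hz : z ∉ L B x y) (hab : a ≠ b) :
    ∃ e, a ∈ B e ∧ b ∈ B e ∧ ¬ (x ∈ B e ∧ y ∈ B e ∧ z ∈ B e) := by
  have hn := h.n2
  have hlt : (univ.filter fun e => x ∈ B e ∧ y ∈ B e ∧ z ∈ B e).card <
      (univ.filter fun e => a ∈ B e ∧ b ∈ B e).card := by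
    rw [h.three hxy.1 hxy.2 hz, h.pair a b hab]
    nlinarith
  obtain ⟨e, he1, he2⟩ := Finset.exists_mem_notMem_of_card_lt_card hlt
  simp only [mem_filter, mem_univ, true_and] at he1 he2
  exact ⟨e, he1.1, he1.2, he2⟩

/-- two long lines of a plane meet -/
theorem meet {x y z a b c d : X} (hxy : Lg n B x y) (hz : z ∉ L B x y) (hab : Lg n B a b)
    (hcd : Lg n B c d) (h1 : a ∈ E B x y z) (h2 : b ∈ E B x y z) (h3 : c ∈ E B x y z)
    (h4 : d ∈ E B x y z) : ∃ q, q ∈ L B a b ∧ q ∈ L B c d := by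
  obtain ⟨e, ea, eb, he⟩ := exists_block h hxy hz hab.1
  obtain ⟨q, hq1, hq2⟩ := h.meets hcd.1 hcd.2 e
  refine ⟨q, ?_, hq1⟩
  by_contra hq
  apply he
  have hqE : q ∈ E B x y z := sub_E h3 h4 hq1
  exact ⟨up h hxy hz hab hq h1 h2 hqE ea eb hq2 xE, up h hxy hz hab hq h1 h2 hqE ea eb hq2 yE,
    up h hxy hz hab hq h1 h2 hqE ea eb hq2 zE⟩

/-- two different lines meet in at most one point -/
theorem eq_of_mem {x y a b u w : X} (hxy : x ≠ y) (hab : a ≠ b) (hne : L B x y ≠ L B a b)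
    (h1 : u ∈ L B x y) (h2 : u ∈ L B a b) (h3 : w ∈ L B x y) (h4 : w ∈ L B a b) : u = w := by
  by_contra huw
  exact hne ((h.L_eq hxy huw h1 h3).symm.trans (h.L_eq hab huw h2 h4))

/-- if `z` is joined to all points of the line `xy` by long lines, then also to all points of the
plane -/
theorem all_long {x y z : X} (hxy : Lg n B x y) (hz : z ∉ L B x y)
    (hzl : ∀ w ∈ L B x y, Lg n B z w) {u : X} (hu : u ∈ E B x y z) (huz : u ≠ z) :
    ∃ w ∈ L B x y, u ∈ L B z w := by
  obtain ⟨e, ea, eb, he⟩ := exists_block h hxy hz huz.symm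
  obtain ⟨w, hw1, hw2⟩ := h.meets hxy.1 hxy.2 e
  refine ⟨w, hw1, ?_⟩
  by_contra hq
  apply he
  have hwE : w ∈ E B x y z := sub_E xE yE hw1
  exact ⟨up h hxy hz (hzl w hw1) hq zE hwE hu ea hw2 eb xE,
    up h hxy hz (hzl w hw1) hq zE hwE hu ea hw2 eb yE,
    up h hxy hz (hzl w hw1) hq zE hwE hu ea hw2 eb zE⟩

theorem all_long' {x y z : X} (hxy : Lg n B x y) (hz : z ∉ L B x y)
    (hzl : ∀ w ∈ L B x y, Lg n B z w) {u : X} (hu : u ∈ E B x y z) (huz : u ≠ z) :
    Lg n B z u := by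
  obtain ⟨w, hw, huw⟩ := all_long h hxy hz hzl hu huz
  exact (hzl w hw).of_mem h huz.symm (left_mem _ _) huw

/-- the number of points of a block in the plane which are not `z` -/
theorem card_trace {x y z : X} (hxy : Lg n B x y) (hz : z ∉ L B x y)
    (hzl : ∀ w ∈ L B x y, Lg n B z w) (S : Finset X) (hS : z ∉ S) (hSE : S ⊆ E B x y z) :
    S.card = ∑ w ∈ L B x y, (S ∩ L B z w).card := by
  rw [← Finset.card_biUnion]
  · congr 1
    ext u
    rw [mem_biUnion]
    constructor
    · intro hu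
      obtain ⟨w, hw, huw⟩ := all_long h hxy hz hzl (hSE hu) (fun e => hS (e ▸ hu))
      exact ⟨w, hw, mem_inter.2 ⟨hu, huw⟩⟩
    · rintro ⟨w, -, hu⟩
      exact (mem_inter.1 hu).1
  · intro w hw w' hw' hne
    rw [Finset.mem_coe] at hw hw'
    rw [Function.onFun, Finset.disjoint_left]
    intro u hu hu'
    rw [mem_inter] at hu hu'
    have huz : u ≠ z := fun e => hS (e ▸ hu.1)
    have e1 := h.L_eq (hzl w hw).1 huz.symm (left_mem _ _) hu.2
    have e2 := h.L_eq (hzl w' hw').1 huz.symm (left_mem _ _) hu'.2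
    have h1 : w' ∈ L B z w := by rw [← e1, e2]; exact right_mem _ _
    have h2 := h.L_eq (hzl w hw).1 hne (right_mem _ _) h1
    have h3 := h.L_eq hxy.1 hne hw hw'
    exact hz (by rw [← h3, h2]; exact left_mem _ _)

theorem card_E {x y z : X} (hxy : Lg n B x y) (hz : z ∉ L B x y)
    (hzl : ∀ w ∈ L B x y, Lg n B z w) : (E B x y z).card = n ^ 2 + n + 1 := by
  have h1 := card_trace h hxy hz hzl ((E B x y z).erase z) (Finset.notMem_erase _ _)
    (Finset.erase_subset _ _)
  have h2 : ∀ w ∈ L B x y, (((E B x y z).erase z) ∩ L B z w).card = n := by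
    intro w hw
    have e : ((E B x y z).erase z) ∩ L B z w = (L B z w).erase z := by
      ext u
      rw [mem_inter, mem_erase, mem_erase]
      constructor
      · rintro ⟨⟨a, b⟩, c⟩; exact ⟨a, c⟩
      · rintro ⟨a, c⟩; exact ⟨⟨a, sub_E zE (sub_E xE yE hw) c⟩, c⟩
    rw [e, Finset.card_erase_of_mem (left_mem _ _), (hzl w hw).2]
    rfl
  rw [Finset.sum_congr rfl h2, Finset.sum_const, hxy.2, smul_eq_mul,
    Finset.card_erase_of_mem zE] at h1
  have h3 : 0 < (E B x y z).card := Finset.card_pos.2 ⟨z, zE⟩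
  have h4 : (n + 1) * n = n ^ 2 + n := by ring
  omega

/-- a block which does not contain `z` meets the plane in `n + 1` points -/
theorem card_block {x y z : X} (hxy : Lg n B x y) (hz : z ∉ L B x y)
    (hzl : ∀ w ∈ L B x y, Lg n B z w) {e : β} (he : z ∉ B e) :
    (B e ∩ E B x y z).card = n + 1 := by
  rw [card_trace h hxy hz hzl _ (fun hh => he (mem_inter.1 hh).1) (Finset.inter_subset_right)]
  have h2 : ∀ w ∈ L B x y, ((B e ∩ E B x y z) ∩ L B z w).card = 1 := by
    intro w hw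
    have e1 : (B e ∩ E B x y z) ∩ L B z w = L B z w ∩ B e := by
      ext u
      rw [mem_inter, mem_inter, mem_inter]
      constructor
      · rintro ⟨⟨a, b⟩, c⟩; exact ⟨c, a⟩
      · rintro ⟨c, a⟩; exact ⟨⟨a, sub_E zE (sub_E xE yE hw) c⟩, c⟩
    rw [e1]
    exact h.inter_one (hzl w hw).1 (hzl w hw).2 (fun hh => he (mem_bl.1 hh).1)
  rw [Finset.sum_congr rfl h2, Finset.sum_const, hxy.2, smul_eq_mul, mul_one]

end Pool.Agent.T9h96.SG
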