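import Mathlib

set_option autoImplicit false
set_option linter.unusedSectionVars false

/-!
# Partial projective planes: lines of a set of `n ^ 2 + n + 1` points
-/

namespace Pool.Agent.T9h96.SG

open Finset

variable {X : Type} [DecidableEq X]

/-- a system of pairwise meeting lines with `n + 1` points on `n ^ 2 + n + 1` points -/
structure Sys (n : ℕ) (P : Finset X) (Q : Finset (Finset X)) : Prop where
  n1 : 1 ≤ n
  cP : P.card = n ^ 2 + n + 1
  sub : ∀ m ∈ Q, m ⊆ P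
  size : ∀ m ∈ Q, m.card = n + 1
  one : ∀ m ∈ Q, ∀ m' ∈ Q, m ≠ m' → (m ∩ m').card = 1

/-- the number of lines through a point -/
def dg (Q : Finset (Finset X)) (u : X) : ℕ := (Q.filter fun m => u ∈ m).card

/-- the points not joined to `u` -/
def nj (P : Finset X) (Q : Finset (Finset X)) (u : X) : Finset X :=
  P.filter fun w => w ≠ u ∧ ∀ m ∈ Q, u ∈ m → w ∉ m

variable {n : ℕ} {P : Finset X} {Q : Finset (Finset X)}

theorem sum_dg (S : Finset X) : ∑ w ∈ S, dg Q w = ∑ m ∈ Q, (S ∩ m).card := by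
  have h1 : ∀ m ∈ Q, (S ∩ m).card = ∑ z ∈ S, if z ∈ m then 1 else 0 := by
    intro b _
    rw [← Finset.card_filter, Finset.filter_mem_eq_inter]
  rw [Finset.sum_congr rfl h1, Finset.sum_comm]
  refine Finset.sum_congr rfl fun w _ => ?_
  rw [dg, Finset.card_filter]

theorem mem_nj {u w : X} : w ∈ nj P Q u ↔ w ∈ P ∧ w ≠ u ∧ ∀ m ∈ Q, u ∈ m → w ∉ m := by
  rw [nj, mem_filter]

theorem nj_symm {u w : X} (hu : u ∈ P) (h : w ∈ nj P Q u) : u ∈ nj P Q w := by
  rw [mem_nj] at h ⊢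
  exact ⟨hu, h.2.1.symm, fun m hm hw hum => h.2.2 m hm hum hw⟩

namespace Sys

variable (h : Sys n P Q)
include h

theorem sum_line {m : Finset X} (hm : m ∈ Q) : ∑ w ∈ m, dg Q w = Q.card + n := by
  rw [sum_dg, ← Finset.add_sum_erase Q _ hm, Finset.inter_self, h.size m hm]
  have : ∑ x ∈ Q.erase m, (m ∩ x).card = (Q.erase m).card := by
    rw [Finset.card_eq_sum_ones]
    refine Finset.sum_congr rfl fun m' hm' => ?_
    rw [mem_erase] at hm'
    exact h.one m hm m' hm'.2 hm'.1.symm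
  rw [this, Finset.card_erase_of_mem hm]
  have : 0 < Q.card := Finset.card_pos.2 ⟨m, hm⟩
  omega

theorem sum_all : ∑ w ∈ P, dg Q w = (n + 1) * Q.card := by
  rw [sum_dg]
  have : ∀ m ∈ Q, (P ∩ m).card = n + 1 := by
    intro m hm
    rw [Finset.inter_eq_right.2 (h.sub m hm), h.size m hm]
  rw [Finset.sum_congr rfl this, Finset.sum_const, smul_eq_mul, mul_comm]

theorem card_nj {u : X} (hu : u ∈ P) : (nj P Q u).card + n * dg Q u = n ^ 2 + n := by
  have h1 : nj P Q u = (P.erase u) \ ((Q.filter fun m => u ∈ m).biUnion fun m => m.erase u) := by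
    ext w
    rw [mem_nj, mem_sdiff, mem_erase, mem_biUnion]
    constructor
    · rintro ⟨a, b, c⟩
      refine ⟨⟨b, a⟩, ?_⟩
      rintro ⟨m, hm, hw⟩
      rw [mem_filter] at hm
      exact c m hm.1 hm.2 (mem_erase.1 hw).2
    · rintro ⟨⟨b, a⟩, c⟩
      refine ⟨a, b, fun m hm hum hw => c ⟨m, mem_filter.2 ⟨hm, hum⟩, mem_erase.2 ⟨b, hw⟩⟩⟩
  have h2 : ((Q.filter fun m => u ∈ m).biUnion fun m => m.erase u).card = n * dg Q u := by
    rw [Finset.card_biUnion]
    · have : ∀ m ∈ Q.filter fun m => u ∈ m, (m.erase u).card = n := by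
        intro m hm
        rw [mem_filter] at hm
        rw [Finset.card_erase_of_mem hm.2, h.size m hm.1]
        rfl
      rw [Finset.sum_congr rfl this, Finset.sum_const, smul_eq_mul, mul_comm]
      rfl
    · intro m hm m' hm' hne
      rw [Finset.mem_coe, mem_filter] at hm hm'
      rw [Function.onFun, Finset.disjoint_left]
      intro w hw hw'
      rw [mem_erase] at hw hw'
      have h3 := h.one m hm.1 m' hm'.1 hne
      have h4 := Finset.card_le_one.1 h3.le u (mem_inter.2 ⟨hm.2, hm'.2⟩) w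
        (mem_inter.2 ⟨hw.2, hw'.2⟩)
      exact hw.1 h4.symm
  have h3 : ((Q.filter fun m => u ∈ m).biUnion fun m => m.erase u) ⊆ P.erase u := by
    intro w hw
    rw [mem_biUnion] at hw
    obtain ⟨m, hm, hw⟩ := hw
    rw [mem_filter] at hm
    rw [mem_erase] at hw ⊢
    exact ⟨hw.1, h.sub m hm.1 hw.2⟩
  have h4 := Finset.card_sdiff_add_card_eq_card h3
  rw [← h1, h2, Finset.card_erase_of_mem hu, h.cP] at h4
  omega

theorem dg_le {u : X} (hu : u ∈ P) : dg Q u ≤ n + 1 := by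
  have h1 := h.card_nj hu
  have h2 := h.n1
  by_contra hcon
  push Not at hcon
  have : n * (n + 2) ≤ n * dg Q u := Nat.mul_le_mul_left _ hcon
  nlinarith

theorem inter_nj {u : X} {m : Finset X} (hm : m ∈ Q) (hum : u ∉ m) :
    (nj P Q u ∩ m).card + dg Q u = n + 1 := by
  have h1 : nj P Q u ∩ m = m \ (m.filter fun w => ∃ m' ∈ Q, u ∈ m' ∧ w ∈ m') := by
    ext w
    rw [mem_inter, mem_nj, mem_sdiff, mem_filter]
    constructor
    · rintro ⟨⟨a, b, c⟩, d⟩
      refine ⟨d, ?_⟩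
      rintro ⟨-, m', hm', hu', hw'⟩
      exact c m' hm' hu' hw'
    · rintro ⟨d, c⟩
      refine ⟨⟨h.sub m hm d, fun e => hum (e ▸ d), fun m' hm' hu' hw' => ?_⟩, d⟩
      exact c ⟨d, m', hm', hu', hw'⟩
  have h2 : (m.filter fun w => ∃ m' ∈ Q, u ∈ m' ∧ w ∈ m').card = dg Q u := by
    rw [dg]
    symm
    have h3 : ∀ m' ∈ Q, u ∈ m' → ∃ w, w ∈ m ∧ w ∈ m' := by
      intro m' hm' hu'
      have hne : m ≠ m' := fun e => hum (e ▸ hu')
      obtain ⟨w, hw⟩ := Finset.card_pos.1 (by rw [h.one m hm m' hm' hne]; exact one_pos)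
      exact ⟨w, (mem_inter.1 hw).1, (mem_inter.1 hw).2⟩
    have h3' : ∀ m', ∃ w, m' ∈ Q → u ∈ m' → w ∈ m ∧ w ∈ m' := by
      intro m'
      by_cases hh : m' ∈ Q ∧ u ∈ m'
      · obtain ⟨w, hw⟩ := h3 m' hh.1 hh.2
        exact ⟨w, fun _ _ => hw⟩
      · exact ⟨u, fun a b => absurd ⟨a, b⟩ hh⟩
    choose f hf using h3'
    apply Finset.card_bij (fun m' _ => f m')
    · intro m' hm'
      rw [mem_filter] at hm'
      rw [mem_filter]
      have := hf m' hm'.1 hm'.2
      exact ⟨this.1, m', hm'.1, hm'.2, this.2⟩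
    · intro m' hm' m'' hm'' e
      rw [mem_filter] at hm' hm''
      have a1 := hf m' hm'.1 hm'.2
      have a2 := hf m'' hm''.1 hm''.2
      by_contra hne
      have h4 := h.one m' hm'.1 m'' hm''.1 hne
      have h5 := Finset.card_le_one.1 h4.le u (mem_inter.2 ⟨hm'.2, hm''.2⟩) (f m')
        (mem_inter.2 ⟨a1.2, by rw [e]; exact a2.2⟩)
      exact hum (h5 ▸ a1.1)
    · intro w hw
      rw [mem_filter] at hw
      obtain ⟨hwm, m', hm', hu', hw'⟩ := hw
      refine ⟨m', mem_filter.2 ⟨hm', hu'⟩, ?_⟩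
      have a1 := hf m' hm' hu'
      have hne : m ≠ m' := fun e => hum (e ▸ hu')
      have h4 := h.one m hm m' hm' hne
      exact Finset.card_le_one.1 h4.le _ (mem_inter.2 a1) _ (mem_inter.2 ⟨hwm, hw'⟩)
  have h3 := Finset.card_sdiff_add_card_eq_card
    (Finset.filter_subset (fun w => ∃ m' ∈ Q, u ∈ m' ∧ w ∈ m') m)
  rw [← h1, h2, h.size m hm] at h3
  exact h3

theorem inter_nj' {u : X} {m : Finset X} (hm : m ∈ Q) (hum : u ∈ m) :
    (nj P Q u ∩ m).card = 0 := by
  rw [Finset.card_eq_zero, Finset.eq_empty_iff_forall_notMem]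
  intro w hw
  rw [mem_inter, mem_nj] at hw
  exact hw.1.2.2 m hm hum hw.2

theorem sum_nj {u : X} (_hu : u ∈ P) :
    ∑ w ∈ nj P Q u, dg Q w = (Q.card - dg Q u) * (n + 1 - dg Q u) := by
  rw [sum_dg, ← Finset.sum_filter_add_sum_filter_not Q (fun m => u ∈ m)]
  have h1 : ∑ m ∈ Q.filter (fun m => u ∈ m), (nj P Q u ∩ m).card = 0 := by
    apply Finset.sum_eq_zero
    intro m hm
    rw [mem_filter] at hm
    exact h.inter_nj' hm.1 hm.2
  have h2 : ∀ m ∈ Q.filter (fun m => ¬ u ∈ m), (nj P Q u ∩ m).card = n + 1 - dg Q u := by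
    intro m hm
    rw [mem_filter] at hm
    have := h.inter_nj hm.1 hm.2
    omega
  have h3 : (Q.filter (fun m => ¬ u ∈ m)).card = Q.card - dg Q u := by
    have := Finset.card_filter_add_card_filter_not (s := Q) (fun m => u ∈ m)
    have e : (Q.filter fun m => u ∈ m).card = dg Q u := rfl
    omega
  rw [h1, zero_add, Finset.sum_congr rfl h2, Finset.sum_const, h3, smul_eq_mul]

/-- if no point is on exactly `n` lines, and some point is not on `n + 1` lines, there are at most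
`n ^ 2 - 1` lines -/
theorem card_le (h3 : ∀ u ∈ P, dg Q u ≠ n) {u : X} (hu : u ∈ P) (h4 : dg Q u ≠ n + 1) :
    Q.card + 1 ≤ n ^ 2 := by
  have hn := h.n1
  have h5 := h.card_nj hu
  have h6 := h.sum_nj hu
  have h7 := h.dg_le hu
  have h8 : ∀ w ∈ nj P Q u, dg Q w ≤ n - 1 := by
    intro w hw
    have hwP : w ∈ P := (mem_nj.1 hw).1
    have h9 := h.card_nj hwP
    have h10 : 0 < (nj P Q w).card := Finset.card_pos.2 ⟨u, nj_symm hu hw⟩
    have h11 := h3 w hwP
    have h12 : dg Q w < n + 1 := by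
      by_contra hcon
      push Not at hcon
      have : n * (n + 1) ≤ n * dg Q w := Nat.mul_le_mul_left _ hcon
      nlinarith
    omega
  have h9 : ∑ w ∈ nj P Q u, dg Q w ≤ (nj P Q u).card * (n - 1) := by
    calc ∑ w ∈ nj P Q u, dg Q w ≤ ∑ w ∈ nj P Q u, (n - 1) := Finset.sum_le_sum h8
      _ = _ := by rw [Finset.sum_const, smul_eq_mul]
  obtain ⟨k, hk⟩ : ∃ k, n + 1 = dg Q u + k := ⟨n + 1 - dg Q u, by omega⟩
  have hk2 : 2 ≤ k := by
    have := h3 u hu
    omega
  have e1 : n + 1 - dg Q u = k := by omega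
  have e2 : (nj P Q u).card = n * k := by
    have : n * (dg Q u + k) = n ^ 2 + n := by rw [← hk]; ring
    nlinarith
  rw [h6, e1, e2] at h9
  have h10 : Q.card - dg Q u ≤ n * (n - 1) := by
    have : (Q.card - dg Q u) * k ≤ (n * (n - 1)) * k := by
      calc _ ≤ _ := h9
        _ = _ := by ring
    exact Nat.le_of_mul_le_mul_right this (by omega)
  have h11 : n * (n - 1) + n = n ^ 2 := by
    obtain ⟨j, rfl⟩ : ∃ j, n = j + 1 := ⟨n - 1, by omega⟩
    simp only [Nat.add_sub_cancel]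
    ring
  omega

/-- the main count -/
theorem gap {l : Finset X} (hl : l ∈ Q) (h3 : ∀ u ∈ P, dg Q u ≠ n)
    (h4 : ∃ u ∈ P, dg Q u ≠ n + 1) : n * (n + 2) ≤ ∑ w ∈ P \ l, (n + 1 - dg Q w) := by
  obtain ⟨u, hu, h4⟩ := h4
  have hc := h.card_le h3 hu h4
  have h5 := h.sum_line hl
  have h6 := h.sum_all
  have h7 := Finset.sum_sdiff (f := fun w => dg Q w) (h.sub l hl)
  have h8 : ∑ w ∈ P \ l, (n + 1 - dg Q w) + ∑ w ∈ P \ l, dg Q w = (n + 1) * n ^ 2 := by
    rw [← Finset.sum_add_distrib]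
    have : ∀ w ∈ P \ l, (n + 1 - dg Q w) + dg Q w = n + 1 := by
      intro w hw
      have := h.dg_le (mem_sdiff.1 hw).1
      omega
    rw [Finset.sum_congr rfl this, Finset.sum_const, smul_eq_mul]
    have e1 := Finset.card_sdiff_add_card_eq_card (h.sub l hl)
    rw [h.cP, h.size l hl] at e1
    have e2 : (P \ l).card = n ^ 2 := by omega
    rw [e2, mul_comm]
  rw [h5, h6] at h7
  nlinarith

end Sys

end Pool.Agent.T9h96.SG
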