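import Pool.Agent.T9h96.SG.Good

set_option autoImplicit false
set_option linter.unusedSectionVars false

/-!
# Desargues' theorem in a plane with long lines only, if there are few short lines
-/

namespace Pool.Agent.T9h96.SG

open Finset Pool.Agent.N345.DW

variable {X β : Type} [Fintype X] [Fintype β] [DecidableEq X] [DecidableEq β]
variable {B : β → Finset X} {n r : ℕ}

/-- the points different from `a` and `b` on the line `ab` -/
def rest (B : β → Finset X) (a b : X) : Finset X := ((L B a b).erase a).erase b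

theorem mem_rest {a b w : X} : w ∈ rest B a b ↔ w ≠ b ∧ w ≠ a ∧ w ∈ L B a b := by
  rw [rest, mem_erase, mem_erase]

theorem not_lg {x y : X} (hxy : x ≠ y) : ¬ Lg n B x y ↔ x ∈ Y n B y := by
  rw [mem_Y, Lg, L_comm x y]
  constructor
  · intro hh
    exact ⟨hxy, fun h2 => hh ⟨hxy, h2⟩⟩
  · rintro ⟨_, h2⟩ ⟨_, h3⟩
    exact h2 h3

variable (h : Dsg n r B)
include h

theorem card_rest {a b : X} (hab : a ≠ b) : (rest B a b).card ≤ n - 1 := by
  rw [rest, Finset.card_erase_of_mem (mem_erase.2 ⟨hab.symm, right_mem _ _⟩),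
    Finset.card_erase_of_mem (left_mem _ _)]
  have := h.card_le hab
  omega

theorem card_rest' {a b : X} (hab : Lg n B a b) : (rest B a b).card = n - 1 := by
  rw [rest, Finset.card_erase_of_mem (mem_erase.2 ⟨hab.1.symm, right_mem _ _⟩),
    Finset.card_erase_of_mem (left_mem _ _), hab.2]
  omega

/-- equal numbers of blocks -/
theorem mem_of_blocks {x y z a b c : X} (hxy : Lg n B x y) (hz : z ∉ L B x y) (hab : Lg n B a b)
    (hc : c ∉ L B a b)
    (hb : ∀ e, a ∈ B e → b ∈ B e → c ∈ B e → x ∈ B e ∧ y ∈ B e ∧ z ∈ B e) : a ∈ E B x y z := by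
  have e1 : (univ.filter fun d => a ∈ B d ∧ b ∈ B d ∧ c ∈ B d) =
      univ.filter fun d => x ∈ B d ∧ y ∈ B d ∧ z ∈ B d := by
    apply Finset.eq_of_subset_of_card_le
    · intro d hd
      simp only [mem_filter, mem_univ, true_and] at hd ⊢
      exact hb d hd.1 hd.2.1 hd.2.2
    · rw [h.three hxy.1 hxy.2 hz, h.three hab.1 hab.2 hc]
  rw [mem_E]
  intro d h1 h2 h3
  have : d ∈ univ.filter fun d => a ∈ B d ∧ b ∈ B d ∧ c ∈ B d := by
    rw [e1]
    simp only [mem_filter, mem_univ, true_and]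
    exact ⟨h1, h2, h3⟩
  simp only [mem_filter, mem_univ, true_and] at this
  exact this.1

section

variable {x y z : X}

/-- the pairs `(P, Q)`: `P` off the plane, `Q` on `OP` -/
def pairs (n : ℕ) (B : β → Finset X) (x y z O : X) : Finset (Σ _ : X, X) :=
  (univ.filter fun p => p ∉ E B x y z ∧ Lg n B O p).sigma fun p => rest B O p

omit h in
theorem mem_pairs {O : X} {t : Σ _ : X, X} : t ∈ pairs n B x y z O ↔
    (t.1 ∉ E B x y z ∧ Lg n B O t.1) ∧ t.2 ≠ t.1 ∧ t.2 ≠ O ∧ t.2 ∈ L B O t.1 := by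
  rw [pairs, mem_sigma, mem_filter, mem_rest]
  simp only [mem_univ, true_and]

theorem off_Q {O : X} {t : Σ _ : X, X} (hO : O ∈ E B x y z) (ht : t ∈ pairs n B x y z O) :
    t.2 ∉ E B x y z := by
  obtain ⟨⟨h1, h2⟩, h3, h4, h5⟩ := mem_pairs.1 ht
  intro hq
  have := h.L_eq h2.1 h4.symm (left_mem _ _) h5
  exact h1 (sub_E hO hq (this ▸ right_mem O t.1))

/-- a point of the plane on the line `OP` is `O` -/
theorem line_OP {O c : X} {t : Σ _ : X, X} (hO : O ∈ E B x y z) (ht : t ∈ pairs n B x y z O)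
    (hc : c ∈ E B x y z) (hcO : c ≠ O) : c ∉ L B O t.1 := by
  obtain ⟨⟨h1, h2⟩, h3, h4, h5⟩ := mem_pairs.1 ht
  intro hcl
  have := h.L_eq h2.1 hcO.symm (left_mem _ _) hcl
  exact h1 (sub_E hO hc (this ▸ right_mem O t.1))

theorem line_PQ {O : X} {t : Σ _ : X, X} (ht : t ∈ pairs n B x y z O) :
    L B t.1 t.2 = L B O t.1 := by
  obtain ⟨⟨h1, h2⟩, h3, h4, h5⟩ := mem_pairs.1 ht
  exact h.L_eq h2.1 h3.symm (right_mem _ _) h5

theorem card_pairs {O : X} {s N : ℕ} (hO : O ∈ E B x y z) (hs : (Y n B O).card ≤ s)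
    (hN : N + (E B x y z).card + s ≤ Fintype.card X) :
    N * (n - 1) ≤ (pairs n B x y z O).card := by
  rw [pairs, card_sigma]
  have h1 : ∀ p ∈ univ.filter fun p => p ∉ E B x y z ∧ Lg n B O p, (rest B O p).card = n - 1 := by
    intro p hp
    rw [mem_filter] at hp
    exact card_rest' h hp.2.2
  rw [Finset.sum_congr rfl h1, Finset.sum_const, smul_eq_mul]
  apply Nat.mul_le_mul_right
  have h2 : (univ : Finset X) ⊆ (univ.filter fun p => p ∉ E B x y z ∧ Lg n B O p) ∪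
      E B x y z ∪ Y n B O := by
    intro p _
    rw [mem_union, mem_union, mem_filter]
    by_cases h1 : p ∈ E B x y z
    · exact Or.inl (Or.inr h1)
    have h2 : p ≠ O := fun e => h1 (e ▸ hO)
    by_cases h3 : Lg n B O p
    · exact Or.inl (Or.inl ⟨mem_univ _, h1, h3⟩)
    · right
      rw [Lg.comm, not_lg h2] at h3
      exact h3
  have h3 := Finset.card_le_card h2
  rw [Finset.card_univ] at h3
  have h4 := Finset.card_union_le ((univ.filter fun p => p ∉ E B x y z ∧ Lg n B O p) ∪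
      E B x y z) (Y n B O)
  have h5 := Finset.card_union_le (univ.filter fun p => p ∉ E B x y z ∧ Lg n B O p)
      (E B x y z)
  omega

theorem bad1 {O a : X} {s : ℕ} (ha : a ∈ E B x y z) (hs : (Y n B a).card ≤ s) :
    ((pairs n B x y z O).filter fun t => ¬ Lg n B t.1 a).card ≤ s * (n - 1) := by
  have h1 : ((pairs n B x y z O).filter fun t => ¬ Lg n B t.1 a) ⊆
      ((Y n B a).filter fun p => O ≠ p).sigma fun p => rest B O p := by
    intro t ht
    rw [mem_filter, mem_pairs] at ht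
    obtain ⟨⟨⟨h1, h2⟩, h3, h4, h5⟩, h6⟩ := ht
    rw [mem_sigma, mem_filter, mem_rest]
    have h1a : t.1 ≠ a := by rintro rfl; exact h1 ha
    exact ⟨⟨(not_lg h1a).1 h6, h2.1⟩, h3, h4, h5⟩
  refine (Finset.card_le_card h1).trans ?_
  rw [card_sigma]
  calc ∑ p ∈ (Y n B a).filter (fun p => O ≠ p), (rest B O p).card
      ≤ ∑ p ∈ (Y n B a).filter (fun p => O ≠ p), (n - 1) :=
        Finset.sum_le_sum fun p hp => card_rest h (mem_filter.1 hp).2
    _ = ((Y n B a).filter (fun p => O ≠ p)).card * (n - 1) := by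
        rw [Finset.sum_const, smul_eq_mul]
    _ ≤ s * (n - 1) := Nat.mul_le_mul_right _ ((Finset.card_filter_le _ _).trans hs)

theorem bad2 {O c : X} {s : ℕ} (hO : O ∈ E B x y z) (hc : c ∈ E B x y z)
    (hs : (Y n B c).card ≤ s) :
    ((pairs n B x y z O).filter fun t => ¬ Lg n B t.2 c).card ≤ s * (n - 1) := by
  have h1 : ((pairs n B x y z O).filter fun t => ¬ Lg n B t.2 c).card ≤
      (((Y n B c).filter fun p => O ≠ p).sigma fun p => rest B O p).card := by
    apply Finset.card_le_card_of_injOn (fun t => (⟨t.2, t.1⟩ : Σ _ : X, X))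
    · intro t ht
      rw [Finset.mem_coe, mem_filter] at ht
      have h7 := off_Q h hO ht.1
      obtain ⟨ht, h6⟩ := ht
      rw [mem_pairs] at ht
      obtain ⟨⟨h1, h2⟩, h3, h4, h5⟩ := ht
      rw [Finset.mem_coe, mem_sigma, mem_filter, mem_rest]
      have h7c : t.2 ≠ c := by rintro rfl; exact h7 hc
      refine ⟨⟨(not_lg h7c).1 h6, h4.symm⟩, h3.symm, h2.1.symm, ?_⟩
      have := h.L_eq h2.1 h4.symm (left_mem _ _) h5
      simp only
      rw [this]
      exact right_mem _ _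
    · rintro ⟨a, b⟩ _ ⟨a', b'⟩ _ e
      simp only [Sigma.mk.injEq, heq_eq_eq] at e
      obtain ⟨rfl, rfl⟩ := e
      rfl
  refine h1.trans ?_
  rw [card_sigma]
  calc ∑ p ∈ (Y n B c).filter (fun p => O ≠ p), (rest B O p).card
      ≤ ∑ p ∈ (Y n B c).filter (fun p => O ≠ p), (n - 1) :=
        Finset.sum_le_sum fun p hp => card_rest h (mem_filter.1 hp).2
    _ = ((Y n B c).filter (fun p => O ≠ p)).card * (n - 1) := by
        rw [Finset.sum_const, smul_eq_mul]
    _ ≤ s * (n - 1) := Nat.mul_le_mul_right _ ((Finset.card_filter_le _ _).trans hs)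

theorem bad3 {O a c d : X} {s : ℕ} (hO : O ∈ E B x y z) (ha : a ∈ E B x y z)
    (hc : c ∈ E B x y z) (hcO : c ≠ O) (hs : (Y n B d).card ≤ s) :
    ((pairs n B x y z O).filter fun t => ∃ u, u ∉ E B x y z ∧ u ∈ L B a t.1 ∧ u ∈ L B c t.2 ∧
      u ∈ Y n B d).card ≤ s * (n - 1) := by
  have h1 : ((pairs n B x y z O).filter fun t => ∃ u, u ∉ E B x y z ∧ u ∈ L B a t.1 ∧
      u ∈ L B c t.2 ∧ u ∈ Y n B d) ⊆
      ((Y n B d).filter fun u => u ∉ E B x y z).biUnion fun u =>
        (pairs n B x y z O).filter fun t => u ∈ L B a t.1 ∧ u ∈ L B c t.2 := by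
    intro t ht
    rw [mem_filter] at ht
    obtain ⟨ht, u, h1, h2, h3, h4⟩ := ht
    rw [mem_biUnion]
    exact ⟨u, mem_filter.2 ⟨h4, h1⟩, mem_filter.2 ⟨ht, h2, h3⟩⟩
  refine (Finset.card_le_card h1).trans (Finset.card_biUnion_le.trans ?_)
  have h2 : ∀ u ∈ (Y n B d).filter (fun u => u ∉ E B x y z),
      ((pairs n B x y z O).filter fun t => u ∈ L B a t.1 ∧ u ∈ L B c t.2).card ≤ n - 1 := by
    intro u hu
    rw [mem_filter] at hu
    have hau : a ≠ u := fun e => hu.2 (e ▸ ha)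
    have hcu : c ≠ u := fun e => hu.2 (e ▸ hc)
    refine le_trans ?_ (card_rest h hau)
    apply Finset.card_le_card_of_injOn (fun t => t.1)
    · intro t ht
      rw [Finset.mem_coe, mem_filter] at ht
      obtain ⟨ht, h2, h3⟩ := ht
      have h9 := line_OP h hO ht hc hcO
      have h10 := line_PQ h ht
      have h7 := off_Q h hO ht
      obtain ⟨⟨h1, h1'⟩, h4, h5, h6⟩ := mem_pairs.1 ht
      rw [Finset.mem_coe, mem_rest]
      have hat : a ≠ t.1 := fun e => h1 (e ▸ ha)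
      refine ⟨?_, hat.symm, ?_⟩
      · intro e
        have hct : c ≠ t.2 := fun e => h7 (e ▸ hc)
        rw [← e] at h3
        have := h.L_eq hct h4 (right_mem _ _) h3
        apply h9
        rw [← h10, L_comm, this]
        exact left_mem _ _
      · have := h.L_eq hat hau (left_mem _ _) h2
        rw [this]
        exact right_mem _ _
    · rintro ⟨p, q⟩ ht ⟨p', q'⟩ ht' e
      simp only at e
      subst e
      rw [Finset.mem_coe, mem_filter] at ht ht'
      obtain ⟨ht, h2, h3⟩ := ht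
      obtain ⟨ht', h2', h3'⟩ := ht'
      have h9 := line_OP h hO ht hc hcO
      have h7 := off_Q h hO ht
      have h7' := off_Q h hO ht'
      obtain ⟨⟨h1, h1'⟩, h4, h5, h6⟩ := mem_pairs.1 ht
      obtain ⟨_, h4', h5', h6'⟩ := mem_pairs.1 ht'
      simp only at *
      by_contra hne
      have hqq : q ≠ q' := by
        intro e
        exact hne (by rw [e])
      have hcq : c ≠ q := fun e => h7 (e ▸ hc)
      have hcq' : c ≠ q' := fun e => h7' (e ▸ hc)
      have e1 := h.L_eq hcq hcu (left_mem _ _) h3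
      have e2 := h.L_eq hcq' hcu (left_mem _ _) h3'
      have e3 := h.L_eq hcu hqq (by rw [e1]; exact right_mem _ _) (by rw [e2]; exact right_mem _ _)
      have e4 := h.L_eq h1'.1 hqq h6 h6'
      apply h9
      rw [← e4, e3]
      exact left_mem _ _
  calc ∑ u ∈ (Y n B d).filter (fun u => u ∉ E B x y z),
      ((pairs n B x y z O).filter fun t => u ∈ L B a t.1 ∧ u ∈ L B c t.2).card
      ≤ ∑ u ∈ (Y n B d).filter (fun u => u ∉ E B x y z), (n - 1) := Finset.sum_le_sum h2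
    _ = ((Y n B d).filter (fun u => u ∉ E B x y z)).card * (n - 1) := by
        rw [Finset.sum_const, smul_eq_mul]
    _ ≤ s * (n - 1) := Nat.mul_le_mul_right _ ((Finset.card_filter_le _ _).trans hs)

/-- a good pair -/
theorem exists_good {O : X} {A C D : Fin 3 → X} {s : ℕ} (hO : O ∈ E B x y z)
    (hA : ∀ i, A i ∈ E B x y z) (hC : ∀ i, C i ∈ E B x y z) (hCO : ∀ i, C i ≠ O)
    (hs : ∀ p, (Y n B p).card ≤ s) (hN : 10 * s + (E B x y z).card < Fintype.card X) :
    ∃ t ∈ pairs n B x y z O, (∀ i, Lg n B t.1 (A i)) ∧ (∀ i, Lg n B t.2 (C i)) ∧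
      ∀ i u, u ∉ E B x y z → u ∈ L B (A i) t.1 → u ∈ L B (C i) t.2 → u ∉ Y n B (D i) := by
  classical
  by_contra hcon
  push Not at hcon
  have hn := h.n2
  have h1 : pairs n B x y z O ⊆ univ.biUnion fun i : Fin 3 =>
      ((pairs n B x y z O).filter fun t => ¬ Lg n B t.1 (A i)) ∪
      ((pairs n B x y z O).filter fun t => ¬ Lg n B t.2 (C i)) ∪
      ((pairs n B x y z O).filter fun t => ∃ u, u ∉ E B x y z ∧ u ∈ L B (A i) t.1 ∧
        u ∈ L B (C i) t.2 ∧ u ∈ Y n B (D i)) := by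
    intro t ht
    rw [mem_biUnion]
    by_cases h1 : ∀ i, Lg n B t.1 (A i)
    · by_cases h2 : ∀ i, Lg n B t.2 (C i)
      · obtain ⟨i, u, h3, h4, h5, h6⟩ := hcon t ht h1 h2
        exact ⟨i, mem_univ _, mem_union.2 (Or.inr (mem_filter.2 ⟨ht, u, h3, h4, h5, h6⟩))⟩
      · push Not at h2
        obtain ⟨i, h2⟩ := h2
        exact ⟨i, mem_univ _, mem_union.2 (Or.inl (mem_union.2 (Or.inr (mem_filter.2 ⟨ht, h2⟩))))⟩
    · push Not at h1
      obtain ⟨i, h1⟩ := h1
      exact ⟨i, mem_univ _, mem_union.2 (Or.inl (mem_union.2 (Or.inl (mem_filter.2 ⟨ht, h1⟩))))⟩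
  have h2 := (Finset.card_le_card h1).trans Finset.card_biUnion_le
  have h3 : ∀ i : Fin 3, (((pairs n B x y z O).filter fun t => ¬ Lg n B t.1 (A i)) ∪
      ((pairs n B x y z O).filter fun t => ¬ Lg n B t.2 (C i)) ∪
      ((pairs n B x y z O).filter fun t => ∃ u, u ∉ E B x y z ∧ u ∈ L B (A i) t.1 ∧
        u ∈ L B (C i) t.2 ∧ u ∈ Y n B (D i))).card ≤ 3 * (s * (n - 1)) := by
    intro i
    have e1 := bad1 h (O := O) (hA i) (hs (A i))
    have e2 := bad2 h hO (hC i) (hs (C i))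
    have e3 := bad3 h hO (hA i) (hC i) (hCO i) (hs (D i))
    have e4 := Finset.card_union_le (((pairs n B x y z O).filter fun t => ¬ Lg n B t.1 (A i)) ∪
      ((pairs n B x y z O).filter fun t => ¬ Lg n B t.2 (C i)))
      ((pairs n B x y z O).filter fun t => ∃ u, u ∉ E B x y z ∧ u ∈ L B (A i) t.1 ∧
        u ∈ L B (C i) t.2 ∧ u ∈ Y n B (D i))
    have e5 := Finset.card_union_le ((pairs n B x y z O).filter fun t => ¬ Lg n B t.1 (A i))
      ((pairs n B x y z O).filter fun t => ¬ Lg n B t.2 (C i))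
    omega
  have h4 := h2.trans (Finset.sum_le_sum fun i _ => h3 i)
  rw [Finset.sum_const, Finset.card_univ, Fintype.card_fin, smul_eq_mul] at h4
  have h5 := card_pairs h (N := 9 * s + 1) hO (hs O) (by omega)
  have h6 : (9 * s + 1) * (n - 1) ≤ 9 * s * (n - 1) := by
    calc _ ≤ _ := h5
      _ ≤ _ := h4
      _ = _ := by ring
  have h7 : 9 * s + 1 ≤ 9 * s := Nat.le_of_mul_le_mul_right h6 (by omega)
  omega

/-- **Desargues' theorem** in a plane in which all lines are long. -/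
theorem desargues {O : X} {A C D : Fin 3 → X} {s : ℕ} (hxy : Lg n B x y) (hz : z ∉ L B x y)
    (hall : ∀ a ∈ E B x y z, ∀ b ∈ E B x y z, a ≠ b → Lg n B a b)
    (hs : ∀ p, (Y n B p).card ≤ s) (hN : 10 * s + (E B x y z).card < Fintype.card X)
    (hO : O ∈ E B x y z) (hA : ∀ i, A i ∈ E B x y z) (hC : ∀ i, C i ∈ E B x y z)
    (hAO : ∀ i, A i ≠ O) (hCO : ∀ i, C i ≠ O) (hAC : ∀ i, A i ≠ C i)
    (hcol : ∀ i, C i ∈ L B O (A i)) (hAA : ∀ i, A (i + 1) ∉ L B O (A i))
    (hDA : ∀ i, D i ∈ L B (A i) (A (i + 1))) (hDC : ∀ i, D i ∈ L B (C i) (C (i + 1)))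
    (hD : D 0 ≠ D 2) : D 1 ∈ L B (D 0) (D 2) := by
  obtain ⟨⟨P, Q⟩, ht, hPA, hQC, hgood⟩ := exists_good h (D := D) hO hA hC hCO hs hN
  have hQE := off_Q h hO ht
  have hlO := fun c hc hcO => line_OP h (c := c) hO ht hc hcO
  have hPQ := line_PQ h ht
  obtain ⟨⟨hPE, hOP⟩, hQP, hQO, hQ⟩ := mem_pairs.1 ht
  simp only at *
  have hline : ∀ a b, a ∈ E B x y z → b ∈ E B x y z → L B a b ⊆ E B x y z := fun a b h1 h2 =>
    sub_E h1 h2
  have hAij : ∀ i, A i ≠ A (i + 1) := fun i e => hAA i (e ▸ right_mem _ _)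
  have hCAA : ∀ i, C i ∉ L B (A i) (A (i + 1)) := by
    intro i hh
    have e1 := h.L_eq (hAij i) (hAC i) (left_mem _ _) hh
    have e2 := h.L_eq (Ne.symm (hAO i)) (hAC i) (right_mem _ _) (hcol i)
    apply hAA i
    rw [← e2, e1]
    exact right_mem _ _
  have hCij : ∀ i, C i ≠ C (i + 1) := by
    intro i e
    have e1 := h.L_eq (Ne.symm (hAO i)) (Ne.symm (hCO i)) (left_mem _ _) (hcol i)
    have e2 := h.L_eq (Ne.symm (hAO (i + 1))) (Ne.symm (hCO (i + 1))) (left_mem _ _)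
      (hcol (i + 1))
    apply hAA i
    rw [← e1, e, e2]
    exact right_mem _ _
  -- the points `T i`
  have hT : ∀ i, ∃ t, t ∈ L B (A i) P ∧ t ∈ L B (C i) Q := by
    intro i
    have e1 : P ∉ L B O (A i) := fun hh => hPE (hline _ _ hO (hA i) hh)
    have e2 : A i ∈ E B O (A i) P := yE
    have e3 : P ∈ E B O (A i) P := zE
    have e4 : C i ∈ E B O (A i) P := sub_E xE yE (hcol i)
    have e5 : Q ∈ E B O (A i) P := sub_E xE zE hQ
    exact meet h (hall _ hO _ (hA i) (hAO i).symm) e1 (hPA i).symm (hQC i).symm e2 e3 e4 e5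
  choose T hT1 hT2 using hT
  have hAP : ∀ i, A i ≠ P := fun i e => hPE (e ▸ hA i)
  have hCQ : ∀ i, C i ≠ Q := fun i e => hQE (e ▸ hC i)
  have hTE : ∀ i, T i ∉ E B x y z := by
    intro i hi
    have e1 : T i = A i := by
      by_contra hne
      have := h.L_eq (hAP i) (Ne.symm hne) (left_mem _ _) (hT1 i)
      exact hPE (hline _ _ (hA i) hi (this ▸ right_mem _ _))
    have e2 : T i = C i := by
      by_contra hne
      have := h.L_eq (hCQ i) (Ne.symm hne) (left_mem _ _) (hT2 i)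
      exact hQE (hline _ _ (hC i) hi (this ▸ right_mem _ _))
    exact hAC i (e1.symm.trans e2)
  have hTP : ∀ i, T i ≠ P := by
    intro i e
    have h1 : P ∈ L B (C i) Q := e ▸ hT2 i
    have h2 := h.L_eq (hCQ i) hQP (right_mem _ _) h1
    apply hlO (C i) (hC i) (hCO i)
    rw [← hPQ, L_comm, h2]
    exact left_mem _ _
  have hTT : ∀ i, T i ≠ T (i + 1) := by
    intro i e
    have h1 := h.L_eq (hAP i) (Ne.symm (hTP i)) (right_mem _ _) (hT1 i)
    have h2 := h.L_eq (hAP (i + 1)) (Ne.symm (hTP (i + 1))) (right_mem _ _) (hT1 (i + 1))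
    rw [← e] at h2
    have h3 : A (i + 1) ∈ L B (A i) P := by rw [← h1, h2]; exact left_mem _ _
    have h4 := h.L_eq (hAP i) (hAij i) (left_mem _ _) h3
    exact hPE (hline _ _ (hA i) (hA (i + 1)) (h4 ▸ right_mem _ _))
  have hDE : ∀ i, D i ∈ E B x y z := fun i => hline _ _ (hA i) (hA (i + 1)) (hDA i)
  have hDT : ∀ i, Lg n B (D i) (T i) := by
    intro i
    by_contra hcon
    have hne : T i ≠ D i := fun e => hTE i (e ▸ hDE i)
    rw [Lg.comm, not_lg hne] at hcon
    exact hgood i (T i) (hTE i) (hT1 i) (hT2 i) hcon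
  -- `T (i + 1)` is on the line `D i T i`
  have hmain : ∀ i, T (i + 1) ∈ L B (D i) (T i) := by
    intro i
    by_contra hcon
    apply hTE i
    have hDi : T i ∈ E B x y z := by
      have e1 : P ∉ L B (A i) (A (i + 1)) := fun hh =>
        hPE (hline _ _ (hA i) (hA (i + 1)) hh)
      have e2 : Q ∉ L B (C i) (C (i + 1)) := fun hh =>
        hQE (hline _ _ (hC i) (hC (i + 1)) hh)
      have hcon' : D i ∉ L B (T i) (T (i + 1)) := by
        intro hh
        have := h.L_eq (hTT i) (Ne.symm (hDT i).1) (left_mem _ _) hh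
        apply hcon
        rw [L_comm, this]
        exact right_mem _ _
      have hcon2 : T (i + 1) ∉ L B (T i) (D i) := by rw [L_comm]; exact hcon
      refine mem_of_blocks h hxy hz (hDT i).symm hcon2 ?_
      intro e h1 h2 h3
      have a1 : A i ∈ B e := up h (hall _ (hA i) _ (hA (i + 1)) (hAij i)) e1 (hDT i).symm hcon2
        (sub_E xE zE (hT1 i)) (sub_E xE yE (hDA i)) (sub_E yE zE (hT1 (i + 1))) h1 h2 h3 xE
      have a2 : A (i + 1) ∈ B e := up h (hall _ (hA i) _ (hA (i + 1)) (hAij i)) e1 (hDT i).symm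
        hcon2 (sub_E xE zE (hT1 i)) (sub_E xE yE (hDA i)) (sub_E yE zE (hT1 (i + 1))) h1 h2 h3 yE
      have a3 : C i ∈ B e := up h (hall _ (hC i) _ (hC (i + 1)) (hCij i)) e2 (hDT i).symm hcon2
        (sub_E xE zE (hT2 i)) (sub_E xE yE (hDC i)) (sub_E yE zE (hT2 (i + 1))) h1 h2 h3 xE
      have a4 := fun w hw => up h hxy hz (hall _ (hA i) _ (hA (i + 1)) (hAij i)) (hCAA i) (hA i)
        (hA (i + 1)) (hC i) a1 a2 a3 (w := w) hw
      exact ⟨a4 x xE, a4 y yE, a4 z zE⟩
    exact hDi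
  have hDL : ∀ i, D i ∈ L B (T i) (T (i + 1)) := by
    intro i
    have := h.L_eq (hDT i).1 (hTT i) (right_mem _ _) (hmain i)
    rw [this]
    exact left_mem _ _
  have hTlg : ∀ i, Lg n B (T i) (T (i + 1)) := fun i =>
    (hDT i).of_mem h (hTT i) (right_mem _ _) (hmain i)
  -- the conclusion
  by_contra hcon
  have hblk : ∀ e, T 0 ∈ B e → T 1 ∈ B e → T 2 ∈ B e → x ∈ B e ∧ y ∈ B e ∧ z ∈ B e := by
    intro e h0 h1 h2
    have d0 : D 0 ∈ B e := mem_L.1 (hDL 0) e h0 h1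
    have d1 : D 1 ∈ B e := mem_L.1 (hDL 1) e h1 h2
    have d2 : D 2 ∈ B e := mem_L.1 (hDL 2) e h2 h0
    have a4 := fun w hw => up h hxy hz (hall _ (hDE 0) _ (hDE 2) hD) hcon (hDE 0) (hDE 2) (hDE 1)
      d0 d2 d1 (w := w) hw
    exact ⟨a4 x xE, a4 y yE, a4 z zE⟩
  by_cases hT3 : T 2 ∈ L B (T 0) (T 1)
  · obtain ⟨e, e0, e1, he⟩ := exists_block h hxy hz (hTT 0)
    exact he (hblk e e0 e1 (mem_L.1 hT3 e e0 e1))
  · exact hTE 0 (mem_of_blocks h hxy hz (hTlg 0) hT3 hblk)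

end

end Pool.Agent.T9h96.SG
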