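import Pool.Agent.T9h96.SG.Basic
import Pool.Agent.T9h96.SG.Count

set_option autoImplicit false
set_option linter.unusedSectionVars false

/-!
# A plane with long lines only
-/

namespace Pool.Agent.T9h96.SG

open Finset Pool.Agent.N345.DW

variable {X β : Type} [Fintype X] [Fintype β] [DecidableEq X] [DecidableEq β]

/-- the long lines in a set of points -/
def lns (n : ℕ) (B : β → Finset X) (P : Finset X) : Finset (Finset X) :=
  ((P ×ˢ P).filter fun p => Lg n B p.1 p.2).image fun p => L B p.1 p.2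

variable {B : β → Finset X} {n r : ℕ}

theorem mem_lns {P m : Finset X} : m ∈ lns n B P ↔ ∃ a ∈ P, ∃ b ∈ P, Lg n B a b ∧ L B a b = m := by
  rw [lns, mem_image]
  constructor
  · rintro ⟨⟨a, b⟩, h1, h2⟩
    rw [mem_filter, mem_product] at h1
    exact ⟨a, h1.1.1, b, h1.1.2, h1.2, h2⟩
  · rintro ⟨a, ha, b, hb, hab, h2⟩
    exact ⟨(a, b), mem_filter.2 ⟨mem_product.2 ⟨ha, hb⟩, hab⟩, h2⟩

variable (h : Dsg n r B)
include h

theorem lns_eq {P m : Finset X} (hm : m ∈ lns n B P) {a b : X} (hab : a ≠ b) (ha : a ∈ m)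
    (hb : b ∈ m) : Lg n B a b ∧ L B a b = m := by
  obtain ⟨c, hc, d, hd, hcd, rfl⟩ := mem_lns.1 hm
  exact ⟨hcd.of_mem h hab ha hb, h.L_eq hcd.1 hab ha hb⟩

theorem sys {x y z : X} (hxy : Lg n B x y) (hz : z ∉ L B x y)
    (hzl : ∀ w ∈ L B x y, Lg n B z w) : Sys n (E B x y z) (lns n B (E B x y z)) where
  n1 := by have := h.n2; omega
  cP := card_E h hxy hz hzl
  sub := by
    intro m hm
    obtain ⟨a, ha, b, hb, hab, rfl⟩ := mem_lns.1 hm
    exact sub_E ha hb
  size := by
    intro m hm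
    obtain ⟨a, ha, b, hb, hab, rfl⟩ := mem_lns.1 hm
    exact hab.2
  one := by
    intro m hm m' hm' hne
    obtain ⟨a, ha, b, hb, hab, rfl⟩ := mem_lns.1 hm
    obtain ⟨c, hc, d, hd, hcd, rfl⟩ := mem_lns.1 hm'
    obtain ⟨q, hq1, hq2⟩ := meet h hxy hz hab hcd ha hb hc hd
    rw [Finset.card_eq_one]
    refine ⟨q, ?_⟩
    ext w
    rw [mem_inter, mem_singleton]
    constructor
    · rintro ⟨h1, h2⟩
      exact eq_of_mem h hab.1 hcd.1 hne h1 h2 hq1 hq2
    · rintro rfl
      exact ⟨hq1, hq2⟩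

/-- the points not joined to `u` by a line of the system -/
theorem nj_eq {x y z : X} (_hxy : Lg n B x y) (_hz : z ∉ L B x y)
    (_hzl : ∀ w ∈ L B x y, Lg n B z w) {u w : X} (hu : u ∈ E B x y z) :
    w ∈ nj (E B x y z) (lns n B (E B x y z)) u ↔ w ∈ E B x y z ∧ w ≠ u ∧ ¬ Lg n B u w := by
  rw [mem_nj]
  constructor
  · rintro ⟨a, b, c⟩
    refine ⟨a, b, fun hh => ?_⟩
    exact c (L B u w) (mem_lns.2 ⟨u, hu, w, a, hh, rfl⟩) (left_mem _ _) (right_mem _ _)
  · rintro ⟨a, b, c⟩
    exact ⟨a, b, fun m hm hum hw => c (lns_eq h hm b.symm hum hw).1⟩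

/-- the number of points of the line `xy` joined to `u` by a short line -/
theorem card_short {x y z : X} (hxy : Lg n B x y) (hz : z ∉ L B x y)
    (hzl : ∀ w ∈ L B x y, Lg n B z w) {u : X} (hu : u ∈ E B x y z) (hul : u ∉ L B x y) :
    ((L B x y).filter fun w => ¬ Lg n B u w).card =
      n + 1 - dg (lns n B (E B x y z)) u := by
  have hS := sys h hxy hz hzl
  have hm : L B x y ∈ lns n B (E B x y z) := mem_lns.2 ⟨x, xE, y, yE, hxy, rfl⟩
  have h1 := hS.inter_nj hm hul
  have h2 : nj (E B x y z) (lns n B (E B x y z)) u ∩ L B x y =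
      (L B x y).filter fun w => ¬ Lg n B u w := by
    ext w
    rw [mem_inter, nj_eq h hxy hz hzl hu, mem_filter]
    constructor
    · rintro ⟨⟨a, b, c⟩, d⟩
      exact ⟨d, c⟩
    · rintro ⟨d, c⟩
      exact ⟨⟨sub_E xE yE d, fun e => hul (e ▸ d), c⟩, d⟩
  rw [h2] at h1
  omega

/-- no point of the plane is on exactly `n` long lines -/
theorem dg_ne {x y z : X} (hxy : Lg n B x y) (hz : z ∉ L B x y)
    (hzl : ∀ w ∈ L B x y, Lg n B z w) {u : X} (hu : u ∈ E B x y z) :
    dg (lns n B (E B x y z)) u ≠ n := by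
  intro hd
  have hS := sys h hxy hz hzl
  have hn := h.n2
  set P := E B x y z with hP
  set Q := lns n B P with hQ
  -- the set of points not joined to `u`
  have h1 := hS.card_nj hu
  rw [hd] at h1
  have h2 : (nj P Q u).card = n := by nlinarith
  have huz : u ≠ z := by
    rintro rfl
    obtain ⟨w, hw⟩ := Finset.card_pos.1 (by rw [h2]; omega : 0 < (nj P Q u).card)
    rw [nj_eq h hxy hz hzl hu] at hw
    exact hw.2.2 (all_long' h hxy hz hzl hw.1 hw.2.1)
  obtain ⟨w0, hw0⟩ := Finset.card_pos.1 (by rw [h2]; omega : 0 < (nj P Q u).card)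
  have hw0' := (nj_eq h hxy hz hzl hu).1 hw0
  set S := insert u (nj P Q u) with hSdef
  have hunj : u ∉ nj P Q u := fun hh => (mem_nj.1 hh).2.1 rfl
  have hSc : S.card = n + 1 := by rw [hSdef, Finset.card_insert_of_notMem hunj, h2]
  -- every block through `u` and `w0` contains `S`
  have key : ∀ e, u ∈ B e → w0 ∈ B e → S ⊆ B e := by
    intro e hue hwe
    by_cases hall : x ∈ B e ∧ y ∈ B e ∧ z ∈ B e
    · intro s hs
      have hsP : s ∈ P := by
        rw [hSdef, mem_insert] at hs
        rcases hs with rfl | hs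
        · exact hu
        · exact (mem_nj.1 hs).1
      exact mem_E.1 hsP e hall.1 hall.2.1 hall.2.2
    · have hsub : B e ∩ P ⊆ S := by
        intro s hs
        rw [mem_inter] at hs
        rw [hSdef, mem_insert]
        by_cases hsu : s = u
        · exact Or.inl hsu
        · right
          rw [nj_eq h hxy hz hzl hu]
          refine ⟨hs.2, hsu, fun hlg => hall ?_⟩
          -- `L u s` is a long line in the block, and `w0` is not on it
          have hw0l : w0 ∉ L B u s := by
            intro hh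
            exact hw0'.2.2 (hlg.of_mem h hw0'.2.1.symm (left_mem _ _) hh)
          exact ⟨up h hxy hz hlg hw0l hu hs.2 hw0'.1 hue hs.1 hwe xE,
            up h hxy hz hlg hw0l hu hs.2 hw0'.1 hue hs.1 hwe yE,
            up h hxy hz hlg hw0l hu hs.2 hw0'.1 hue hs.1 hwe zE⟩
      have hze : z ∉ B e := by
        intro hze
        have := hsub (mem_inter.2 ⟨hze, zE⟩)
        rw [hSdef, mem_insert] at this
        rcases this with hh | hh
        · exact huz hh.symm
        · rw [nj_eq h hxy hz hzl hu] at hh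
          exact hh.2.2 (all_long' h hxy hz hzl hu huz).symm
      have hc := card_block h hxy hz hzl hze
      have heq : B e ∩ P = S := Finset.eq_of_subset_of_card_le hsub (by rw [hSc, hc])
      rw [← heq]
      exact Finset.inter_subset_left
  have hSL : S ⊆ L B u w0 := by
    intro s hs
    rw [mem_L]
    intro e h1 h2
    exact key e h1 h2 hs
  have hc := Finset.card_le_card hSL
  rw [hSc] at hc
  have hc2 := h.card_le hw0'.2.1.symm
  exact hw0'.2.2 ⟨hw0'.2.1.symm, by omega⟩

/-- **A plane in which all lines are long.** -/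
theorem exists_plane {x y : X} (hxy : Lg n B x y)
    (hs : ∑ v ∈ L B x y, (Y n B v).card < n ^ 2 * (r * n + 1)) :
    ∃ z, z ∉ L B x y ∧ ∀ a ∈ E B x y z, ∀ b ∈ E B x y z, a ≠ b → Lg n B a b := by
  classical
  have hn := h.n2
  set l := L B x y with hl
  set k : X → ℕ := fun w => (l.filter fun v => ¬ Lg n B w v).card with hk
  -- the sum of the numbers `k w`
  have h1 : ∑ w ∈ univ \ l, k w ≤ ∑ v ∈ l, (Y n B v).card := by
    have e1 : ∀ w ∈ univ \ l, k w = ∑ v ∈ l, if ¬ Lg n B w v then 1 else 0 := by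
      intro w _
      rw [← Finset.card_filter]
    rw [Finset.sum_congr rfl e1, Finset.sum_comm]
    apply Finset.sum_le_sum
    intro v hv
    rw [← Finset.card_filter]
    apply Finset.card_le_card
    intro w hw
    rw [mem_filter, mem_sdiff] at hw
    rw [mem_Y]
    have hwv : w ≠ v := fun e => hw.1.2 (e ▸ hv)
    refine ⟨hwv, fun hh => hw.2 (Lg.symm ⟨hwv.symm, hh⟩)⟩
  have hcl : (univ \ l : Finset X).card = n ^ 2 * (r * n + 1) := by
    have := Finset.card_sdiff_add_card_eq_card (Finset.subset_univ l)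
    rw [Finset.card_univ, h.cX, hl, hxy.2] at this
    rw [hl]
    have e : ((r * n + 1) * n + 1) * n + 1 = n ^ 2 * (r * n + 1) + (n + 1) := by ring
    omega
  have h2 : ∑ w ∈ univ \ l, k w < ∑ w ∈ univ \ l, 1 := by
    rw [← Finset.card_eq_sum_ones, hcl]
    exact lt_of_le_of_lt h1 hs
  -- split into the planes through the line
  set c : X → Finset X := fun w => E B x y w \ l with hc
  have hcl' : ∀ w ∈ univ \ l, w ∈ c w := fun w hw =>
    mem_sdiff.2 ⟨zE, (mem_sdiff.1 hw).2⟩
  have hceq : ∀ w ∈ univ \ l, ∀ w' ∈ c w, c w' = c w := by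
    intro w hw w' hw'
    rw [mem_sdiff] at hw hw'
    simp only [hc]
    rw [up_eq h hxy hw.2 hxy hw'.2 xE yE hw'.1]
  have h3 : ∑ C ∈ (univ \ l).image c, ∑ w ∈ (univ \ l) with c w = C, k w <
      ∑ C ∈ (univ \ l).image c, ∑ w ∈ (univ \ l) with c w = C, 1 := by
    rw [Finset.sum_fiberwise_of_maps_to (fun w hw => mem_image_of_mem c hw),
      Finset.sum_fiberwise_of_maps_to (fun w hw => mem_image_of_mem c hw)]
    exact h2
  obtain ⟨C, hC, hC2⟩ := Finset.exists_lt_of_sum_lt h3
  rw [mem_image] at hC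
  obtain ⟨w, hw, rfl⟩ := hC
  have hfib : ((univ \ l).filter fun w' => c w' = c w) = c w := by
    ext w'
    rw [mem_filter]
    constructor
    · rintro ⟨h1, h2⟩
      rw [← h2]
      exact hcl' w' h1
    · intro h1
      exact ⟨mem_sdiff.2 ⟨mem_univ _, (mem_sdiff.1 h1).2⟩, hceq w hw w' h1⟩
  rw [hfib] at hC2
  obtain ⟨z, hz, hz2⟩ := Finset.exists_lt_of_sum_lt hC2
  have hzl : z ∉ l := (mem_sdiff.1 hz).2
  have hkz : ∀ v ∈ L B x y, Lg n B z v := by
    intro v hv
    by_contra hcon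
    have : 0 < k z := Finset.card_pos.2 ⟨v, mem_filter.2 ⟨hv, hcon⟩⟩
    omega
  rw [← hceq w hw z hz] at hC2
  refine ⟨z, hzl, ?_⟩
  have hS := sys h hxy hzl hkz
  have hm : L B x y ∈ lns n B (E B x y z) := mem_lns.2 ⟨x, xE, y, yE, hxy, rfl⟩
  have hcard : (c z).card = n ^ 2 := by
    have e1 := Finset.card_sdiff_add_card_eq_card (hS.sub _ hm)
    rw [hS.cP, hxy.2] at e1
    simp only [hc]
    rw [← hl] at e1
    omega
  rw [← Finset.card_eq_sum_ones, hcard] at hC2
  have hsum : ∑ u ∈ c z, k u = ∑ u ∈ E B x y z \ L B x y, (n + 1 - dg (lns n B (E B x y z)) u) := by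
    apply Finset.sum_congr rfl
    intro u hu
    rw [mem_sdiff] at hu
    exact card_short h hxy hzl hkz hu.1 hu.2
  have hall : ∀ u ∈ E B x y z, dg (lns n B (E B x y z)) u = n + 1 := by
    by_contra hcon
    push Not at hcon
    have := hS.gap hm (fun u hu => dg_ne h hxy hzl hkz hu) hcon
    rw [← hsum] at this
    nlinarith
  intro a ha b hb hab
  by_contra hcon
  have h5 := hS.card_nj ha
  rw [hall a ha] at h5
  have h6 : (nj (E B x y z) (lns n B (E B x y z)) a).card = 0 := by nlinarith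
  rw [Finset.card_eq_zero, Finset.eq_empty_iff_forall_notMem] at h6
  exact h6 b ((nj_eq h hxy hzl hkz ha).2 ⟨hb, hab.symm, hcon⟩)

end Pool.Agent.T9h96.SG
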