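import Pool.Agent.T9h96.SG.Des
import Pool.Agent.N345.DW.Main
import Pool.Agent.N367.PPD.Main
import Pool.Agent.W825.FP.BR

set_option autoImplicit false
set_option linter.unusedSectionVars false

/-!
# The order is a prime power, if there are few short lines
-/

namespace Pool.Agent.T9h96.SG

open Finset Configuration Configuration.ProjectivePlane Pool.Agent.N345.DW
open scoped Classical

noncomputable section

variable {X β : Type} [Fintype X] [Fintype β]
variable {B : β → Finset X} {n r : ℕ} {x y z : X}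

theorem ln_eq (h : Dsg n r B) {a b : X} (l : Ln B x y z) (ha : a ∈ l.1) (hb : b ∈ l.1)
    (hab : a ≠ b) : l.1 = L B a b := by
  obtain ⟨l, c, hc, d, hd, hcd, rfl⟩ := l
  exact (h.L_eq hcd hab ha hb).symm

section

variable (h : Dsg n r B) (hxy : Lg n B x y) (hz : z ∉ L B x y)
  (hall : ∀ a ∈ E B x y z, ∀ b ∈ E B x y z, a ≠ b → Lg n B a b)
include h hxy hz hall

omit hall in
theorem xz : x ≠ z := fun e => hz (e ▸ left_mem x y)

omit hall in
theorem yz : y ≠ z := fun e => hz (e ▸ right_mem x y)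

omit hall in
theorem y_notMem : y ∉ L B x z := fun hh => by
  have := h.L_eq (xz h hxy hz) hxy.1 (left_mem _ _) hh
  exact hz (this ▸ right_mem x z)

omit hall in
theorem x_notMem : x ∉ L B y z := fun hh => by
  have := h.L_eq (yz h hxy hz) (Ne.symm hxy.1) (left_mem _ _) hh
  rw [L_comm] at this
  exact hz (this ▸ right_mem y z)

omit hxy hz hall in
theorem third {a b : X} (hab : Lg n B a b) : ∃ c ∈ L B a b, c ≠ a ∧ c ≠ b := by
  have hn := h.n2
  obtain ⟨Q, hQ, hQ2⟩ : ∃ Q ∈ L B a b, Q ∉ ({a, b} : Finset X) := by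
    apply Finset.exists_mem_notMem_of_card_lt_card
    rw [hab.2]
    exact lt_of_le_of_lt Finset.card_le_two (by omega)
  simp only [mem_insert, mem_singleton, not_or] at hQ2
  exact ⟨Q, hQ, hQ2⟩

/-- the projective plane -/
@[reducible] def plane : ProjectivePlane (Pt B x y z) (Ln B x y z) where
  exists_point := by
    intro l
    by_contra hcon
    push Not at hcon
    have h1 : x ∈ l.1 := hcon ⟨x, SG.xE⟩
    have h2 : y ∈ l.1 := hcon ⟨y, SG.yE⟩
    have h3 : z ∈ l.1 := hcon ⟨z, SG.zE⟩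
    rw [ln_eq h l h1 h2 hxy.1] at h3
    exact hz h3
  exists_line := by
    intro p
    by_contra hcon
    push Not at hcon
    have h1 : p.1 ∈ L B x y := hcon (mkL SG.xE SG.yE hxy.1)
    have h2 : p.1 ∈ L B x z := hcon (mkL SG.xE SG.zE (xz h hxy hz))
    have h3 : p.1 ∈ L B y z := hcon (mkL SG.yE SG.zE (yz h hxy hz))
    by_cases hp : p.1 = x
    · exact x_notMem h hxy hz (hp ▸ h3)
    · have e1 := h.L_eq hxy.1 (Ne.symm hp) (left_mem _ _) h1
      have e2 := h.L_eq (xz h hxy hz) (Ne.symm hp) (left_mem _ _) h2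
      exact hz (by rw [← e1, e2]; exact right_mem _ _)
  eq_or_eq := by
    intro p q l m h1 h2 h3 h4
    by_cases hpq : p.1 = q.1
    · exact Or.inl (Subtype.ext hpq)
    · right
      apply Subtype.ext
      rw [ln_eq h l h1 h2 hpq, ln_eq h m h3 h4 hpq]
  mkPoint := by
    intro l m _
    have : ∃ q : Pt B x y z, q ∈ l ∧ q ∈ m := by
      obtain ⟨l, a, ha, b, hb, hab, rfl⟩ := l
      obtain ⟨m, c, hc, d, hd, hcd, rfl⟩ := m
      obtain ⟨q, hq1, hq2⟩ := meet h hxy hz (hall a ha b hb hab) (hall c hc d hd hcd) ha hb hc hd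
      exact ⟨⟨q, sub_E ha hb hq1⟩, hq1, hq2⟩
    exact this.choose
  mkPoint_ax := by
    intro l m hlm
    have : ∃ q : Pt B x y z, q ∈ l ∧ q ∈ m := by
      obtain ⟨l, a, ha, b, hb, hab, rfl⟩ := l
      obtain ⟨m, c, hc, d, hd, hcd, rfl⟩ := m
      obtain ⟨q, hq1, hq2⟩ := meet h hxy hz (hall a ha b hb hab) (hall c hc d hd hcd) ha hb hc hd
      exact ⟨⟨q, sub_E ha hb hq1⟩, hq1, hq2⟩
    exact this.choose_spec
  mkLine := fun {p q} hpq => mkL p.2 q.2 (fun e => hpq (Subtype.ext e))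
  mkLine_ax := fun {p q} _ => ⟨left_mem _ _, right_mem _ _⟩
  exists_config := by
    obtain ⟨u, hu, huy, huz⟩ := third h (hall y SG.yE z SG.zE (yz h hxy hz))
    obtain ⟨v, hv, hvx, hvy⟩ := third h hxy
    have huE : u ∈ E B x y z := sub_E SG.yE SG.zE hu
    have hvE : v ∈ E B x y z := sub_E SG.xE SG.yE hv
    have hzv : z ≠ v := fun e => hz (e ▸ hv)
    refine ⟨⟨u, huE⟩, ⟨x, SG.xE⟩, ⟨y, SG.yE⟩, mkL SG.zE hvE hzv, mkL SG.xE SG.yE hxy.1,
      mkL SG.xE SG.zE (xz h hxy hz),
      ?_, ?_, ?_, left_mem _ _, left_mem _ _, ?_, right_mem _ _, y_notMem h hxy hz⟩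
    · intro hh
      have hh : u ∈ L B x y := hh
      have e1 := h.L_eq hxy.1 (Ne.symm huy) (right_mem _ _) hh
      have e2 := h.L_eq (yz h hxy hz) (Ne.symm huy) (left_mem _ _) hu
      exact hz (by rw [← e1, e2]; exact right_mem _ _)
    · intro hh
      have hh : u ∈ L B x z := hh
      have e1 := h.L_eq (xz h hxy hz) (Ne.symm huz) (right_mem _ _) hh
      have e2 := h.L_eq (yz h hxy hz) (Ne.symm huz) (right_mem _ _) hu
      exact y_notMem h hxy hz (by rw [← e1, e2]; exact left_mem _ _)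
    · intro hh
      have hh : x ∈ L B z v := hh
      have e1 := h.L_eq hzv hvx (right_mem _ _) hh
      have e2 := h.L_eq hxy.1 hvx hv (left_mem _ _)
      exact hz (by rw [← e2, e1]; exact left_mem _ _)
    · intro hh
      have hh : y ∈ L B z v := hh
      have e1 := h.L_eq hzv hvy (right_mem _ _) hh
      have e2 := h.L_eq hxy.1 hvy hv (right_mem _ _)
      exact hz (by rw [← e2, e1]; exact left_mem _ _)

theorem order_plane :
    @order (Pt B x y z) (Ln B x y z) _ (plane h hxy hz hall) = n := by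
  letI := plane h hxy hz hall
  have h1 := pointCount_eq (P := Pt B x y z) (mkL (z := z) SG.xE SG.yE hxy.1 : Ln B x y z)
  have h2 : pointCount (Pt B x y z) (mkL (z := z) SG.xE SG.yE hxy.1 : Ln B x y z) = n + 1 := by
    unfold pointCount
    have hc : (L B x y).card = n + 1 := hxy.2
    refine Eq.trans ?_ ((Nat.card_eq_finsetCard (L B x y)).trans hc)
    refine Nat.card_congr ⟨fun p => ⟨p.1.1, p.2⟩, fun w => ⟨⟨w.1, sub_E SG.xE SG.yE w.2⟩, w.2⟩,
      ?_, ?_⟩
    · intro p; rfl
    · intro w; rfl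
  omega

theorem fail_empty {s : ℕ} (hs : ∀ p, (Y n B p).card ≤ s)
    (hN : 10 * s + (E B x y z).card < Fintype.card X) :
    @Pool.Agent.N367.PPD.failSet (Pt B x y z) (Ln B x y z) _ _ = ∅ := by
  letI := plane h hxy hz hall
  rw [Finset.eq_empty_iff_forall_notMem]
  rintro ⟨O, A, C⟩ ht
  rw [Pool.Agent.N367.PPD.mem_failSet] at ht
  obtain ⟨hP, hL⟩ := ht
  apply hL
  obtain ⟨h1, ⟨l, hl, hl2⟩, hA3, hC3⟩ := hP
  have hAO : ∀ i, (A i).1 ≠ O.1 := fun i e => (h1 i).1 (Subtype.ext e)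
  have hCO : ∀ i, (C i).1 ≠ O.1 := fun i e => (h1 i).2.1 (Subtype.ext e)
  have hAC : ∀ i, (A i).1 ≠ (C i).1 := fun i e => (h1 i).2.2 (Subtype.ext e)
  have hlA : ∀ i, (l i).1 = L B O.1 (A i).1 := fun i =>
    ln_eq h (l i) (hl2 i).1 (hl2 i).2.1 (hAO i).symm
  have hlC : ∀ i, (l i).1 = L B O.1 (C i).1 := fun i =>
    ln_eq h (l i) (hl2 i).1 (hl2 i).2.2 (hCO i).symm
  have hcol : ∀ i, (C i).1 ∈ L B O.1 (A i).1 := by
    intro i
    rw [← hlA i]
    exact (hl2 i).2.2
  have hAA : ∀ i j, i ≠ j → (A j).1 ∉ L B O.1 (A i).1 := by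
    intro i j hij hh
    apply hij
    apply hl
    apply Subtype.ext
    rw [hlA i, hlA j]
    exact (h.L_eq (hAO i).symm (hAO j).symm (left_mem _ _) hh).symm
  have hCC : ∀ i j, i ≠ j → (C j).1 ∉ L B O.1 (C i).1 := by
    intro i j hij hh
    apply hij
    apply hl
    apply Subtype.ext
    rw [hlC i, hlC j]
    exact (h.L_eq (hCO i).symm (hCO j).symm (left_mem _ _) hh).symm
  have hAij : ∀ i j, i ≠ j → (A i).1 ≠ (A j).1 := fun i j hij e =>
    hAA i j hij (e ▸ right_mem _ _)
  have hCij : ∀ i j, i ≠ j → (C i).1 ≠ (C j).1 := fun i j hij e =>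
    hCC i j hij (e ▸ right_mem _ _)
  have hsucc : ∀ i : Fin 3, i ≠ i + 1 := by decide
  have hD : ∀ i : Fin 3, ∃ d, d ∈ L B (A i).1 (A (i + 1)).1 ∧ d ∈ L B (C i).1 (C (i + 1)).1 :=
    fun i => meet h hxy hz (hall _ (A i).2 _ (A (i + 1)).2 (hAij _ _ (hsucc i)))
      (hall _ (C i).2 _ (C (i + 1)).2 (hCij _ _ (hsucc i))) (A i).2 (A (i + 1)).2 (C i).2
      (C (i + 1)).2
  choose D hDA hDC using hD
  have hDE : ∀ i, D i ∈ E B x y z := fun i => sub_E (A i).2 (A (i + 1)).2 (hDA i)
  have key := desargues h (O := O.1) (A := fun i => (A i).1) (C := fun i => (C i).1) (D := D)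
    hxy hz hall hs hN O.2 (fun i => (A i).2) (fun i => (C i).2) hAO hCO hAC hcol
    (fun i => hAA _ _ (hsucc i)) hDA hDC
  obtain ⟨a, ha0, ha1, ha2⟩ : ∃ a : Ln B x y z, D 0 ∈ a.1 ∧ D 1 ∈ a.1 ∧ D 2 ∈ a.1 := by
    by_cases e1 : D 0 = D 2
    · by_cases e2 : D 0 = D 1
      · obtain ⟨w, hw⟩ : ∃ w : Pt B x y z, D 0 ≠ w.1 := by
          by_cases hx : D 0 = x
          · exact ⟨⟨y, SG.yE⟩, fun e => hxy.1 (hx ▸ e)⟩
          · exact ⟨⟨x, SG.xE⟩, hx⟩
        refine ⟨mkL (hDE 0) w.2 hw, left_mem _ _, ?_, ?_⟩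
        · rw [← e2]; exact left_mem _ _
        · rw [← e1]; exact left_mem _ _
      · refine ⟨mkL (hDE 0) (hDE 1) e2, left_mem _ _, right_mem _ _, ?_⟩
        rw [← e1]; exact left_mem _ _
    · exact ⟨mkL (hDE 0) (hDE 2) e1, left_mem _ _, key e1, right_mem _ _⟩
  have hm : ∀ i : Fin 3, D i ∈ a.1 → Pool.Agent.N367.PPD.Meet a A C i (i + 1) := by
    intro i ha
    refine ⟨⟨D i, hDE i⟩, ha, ?_, ?_⟩
    · intro m hi hj
      change D i ∈ m.1
      rw [ln_eq h m hi hj (hAij i (i + 1) (hsucc i))]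
      exact hDA i
    · intro m hi hj
      change D i ∈ m.1
      rw [ln_eq h m hi hj (hCij i (i + 1) (hsucc i))]
      exact hDC i
  refine ⟨a, hm 0 ha0, ?_, hm 1 ha1⟩
  obtain ⟨p, hp, hp1, hp2⟩ := hm 2 ha2
  exact ⟨p, hp, fun m hi hj => hp1 m hj hi, fun m hi hj => hp2 m hj hi⟩

end

/-- **A robust Dembowski–Wagner theorem**, for designs -/
theorem primePow (h : Dsg n r B) (hr : 1 ≤ r)
    (hs : ∀ p, (n + 1) * (Y n B p).card < n ^ 2 * (r * n + 1)) : IsPrimePow n := by
  by_contra hnp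
  have hn := h.n2
  -- a long line
  have hpos : 0 < Fintype.card X := by rw [h.cX]; omega
  obtain ⟨x⟩ := Fintype.card_pos_iff.1 hpos
  obtain ⟨y, hy⟩ : ∃ y, Lg n B x y := by
    by_contra hcon
    push Not at hcon
    have h1 : (univ : Finset X) ⊆ insert x (Y n B x) := by
      intro p _
      rw [mem_insert]
      by_cases hp : p = x
      · exact Or.inl hp
      · right
        have := hcon p
        rw [Lg.comm, not_lg hp] at this
        exact this
    have h2 := (Finset.card_le_card h1).trans (Finset.card_insert_le _ _)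
    rw [Finset.card_univ, h.cX] at h2
    have h3 := hs x
    nlinarith [Nat.zero_le (r * n)]
  -- a plane with long lines only
  have hsum : ∑ v ∈ L B x y, (Y n B v).card < n ^ 2 * (r * n + 1) := by
    have h1 : (n + 1) * ∑ v ∈ L B x y, (Y n B v).card < (n + 1) * (n ^ 2 * (r * n + 1)) := by
      rw [Finset.mul_sum]
      calc ∑ v ∈ L B x y, (n + 1) * (Y n B v).card
          < ∑ v ∈ L B x y, n ^ 2 * (r * n + 1) :=
            Finset.sum_lt_sum_of_nonempty ⟨x, left_mem _ _⟩ fun v _ => hs v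
        _ = _ := by rw [Finset.sum_const, hy.2, smul_eq_mul]
    exact Nat.lt_of_mul_lt_mul_left h1
  obtain ⟨z, hz, hall⟩ := exists_plane h hy hsum
  letI := plane h hy hz hall
  have ho := order_plane h hy hz hall
  -- `n` is at least ten, or six
  have hcases : n = 6 ∨ 10 ≤ n := by
    by_contra hcon
    push Not at hcon
    apply hnp
    obtain ⟨h6, h10⟩ := hcon
    interval_cases n
    · exact Nat.prime_two.isPrimePow
    · exact Nat.prime_three.isPrimePow
    · exact (isPrimePow_nat_iff 4).2 ⟨2, 2, Nat.prime_two, by norm_num, by norm_num⟩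
    · exact Nat.prime_five.isPrimePow
    · exact absurd rfl h6
    · exact (by norm_num : Nat.Prime 7).isPrimePow
    · exact (isPrimePow_nat_iff 8).2 ⟨2, 3, Nat.prime_two, by norm_num, by norm_num⟩
    · exact (isPrimePow_nat_iff 9).2 ⟨3, 2, Nat.prime_three, by norm_num, by norm_num⟩
  rcases hcases with h6 | h10
  · have := Pool.Agent.W825.FP.br (P := Pt B x y z) (L := Ln B x y z) (by rw [ho, h6]; norm_num)
      Nat.prime_three (by norm_num) (by rw [ho, h6]; norm_num) (by rw [ho, h6]; norm_num)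
    exact this (by norm_num)
  · -- the bound
    set s := (univ : Finset X).sup fun p => (Y n B p).card with hsdef
    have hs1 : ∀ p, (Y n B p).card ≤ s := fun p => Finset.le_sup (f := fun p => (Y n B p).card) (mem_univ p)
    have hs2 : (n + 1) * s < n ^ 2 * (r * n + 1) := by
      obtain ⟨p, -, hp⟩ := Finset.exists_mem_eq_sup (univ : Finset X) ⟨x, mem_univ x⟩
        (fun p => (Y n B p).card)
      rw [hsdef, hp]
      exact hs p
    have hzl : ∀ w ∈ L B x y, Lg n B z w := fun w hw =>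
      hall z SG.zE w (sub_E SG.xE SG.yE hw) (fun e => hz (e ▸ hw))
    have hcE := card_E h hy hz hzl
    have hN : 10 * s + (E B x y z).card < Fintype.card X := by
      rw [hcE, h.cX]
      have e1 : ((r * n + 1) * n + 1) * n + 1 = n ^ 2 * (r * n) + (n ^ 2 + n + 1) := by ring
      rw [e1]
      have e2 : 10 * s < n ^ 2 * (r * n) := by
        have e3 : 10 * (n ^ 2 * (r * n + 1)) ≤ (n + 1) * (n ^ 2 * (r * n)) := by
          have e4 : 10 * (r * n + 1) ≤ (n + 1) * (r * n) := by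
            have : 10 ≤ r * n := by nlinarith
            nlinarith
          calc 10 * (n ^ 2 * (r * n + 1)) = n ^ 2 * (10 * (r * n + 1)) := by ring
            _ ≤ n ^ 2 * ((n + 1) * (r * n)) := Nat.mul_le_mul_left _ e4
            _ = _ := by ring
        have e5 : (n + 1) * (10 * s) < (n + 1) * (n ^ 2 * (r * n)) := by
          calc (n + 1) * (10 * s) = 10 * ((n + 1) * s) := by ring
            _ < 10 * (n ^ 2 * (r * n + 1)) := by omega
            _ ≤ _ := e3
        exact Nat.lt_of_mul_lt_mul_left e5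
      omega
    rcases Pool.Agent.N367.PPD.main (P := Pt B x y z) (L := Ln B x y z)
      (by rw [ho]; omega) with h1 | h1
    · rw [ho] at h1
      exact hnp h1.2
    · rw [fail_empty h hy hz hall hs1 hN, Finset.card_empty, mul_zero, ho] at h1
      have : 0 < n ^ 10 := by positivity
      omega

end

theorem primePow' {X β : Type} [Fintype X] [Fintype β] [dX : DecidableEq X]
    [dβ : DecidableEq β] {n r : ℕ} {B : β → Finset X} (h : Dsg n r B) (hr : 1 ≤ r)
    (hs : ∀ p, (n + 1) * (Y n B p).card < n ^ 2 * (r * n + 1)) : IsPrimePow n := by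
  have e1 : dX = fun a b => Classical.propDecidable (a = b) := Subsingleton.elim _ _
  have e2 : dβ = fun a b => Classical.propDecidable (a = b) := Subsingleton.elim _ _
  subst e1
  subst e2
  exact primePow h hr hs

end Pool.Agent.T9h96.SG
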